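import Pool.Agent.QMA.StmtsB

/-!
# QMA, rows AMN and DEF: the interfaces of part B
-/

namespace Pool.Agent.QMA.H30

open Pool.Agent.LCI Pool.Agent.DFO
open scoped BigOperators

section
variable {k K : Type} [Field k] [Field K] [Algebra k K]

/-- A field which is the fraction field of a finitely generated subalgebra is finitely generated. -/
theorem top_fg (R₀ : Subalgebra k K) (hfg : R₀.FG) (hfr : Frac R₀) :
    (⊤ : IntermediateField k K).FG := by
  obtain ⟨s, hs⟩ := hfg
  refine ⟨s, ?_⟩
  rw [eq_top_iff]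
  intro f _
  obtain ⟨a, ha, b, hb, hb0, rfl⟩ := hfr f
  have key : ∀ x ∈ R₀, x ∈ IntermediateField.adjoin k (s : Set K) := by
    intro x hx
    rw [← hs] at hx
    exact (IntermediateField.algebra_adjoin_le_adjoin k (s : Set K)) hx
  exact div_mem (key a ha) (key b hb)

end

/-- AMN -/
theorem amn (abn : AbnStmt) : AmnStmt := by
  intro k K _ _ _ _ _ n F R₀ w z hfg hfr hz f hf
  exact (abn k K n F w z (top_fg R₀ hfg hfr) hz).2 f hf

/-- DEF -/
theorem defi (defb : DefbStmt) : DefStmt := by
  intro k K _ _ _ _ _ n F R₀ p w hfg hfr _ hw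
  exact defb k K n F p w R₀ hfg hfr hw

end Pool.Agent.QMA.H30

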