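import Pool.Agent.Helper74_DFO.Comp
import Pool.Agent.Helper30_QMA.AMN
import Pool.Agent.Helper62_QMA.CJG
import Pool.Agent.Helper92_QMA.EXR
import Pool.Agent.Helper88_QMA.DBN
import Pool.Agent.Helper69_QMA.FRN
import Pool.Agent.Helper53_QMA.GR2
import Pool.Agent.Helper58_QMA.IM2
import Pool.Agent.Helper89_QMA.TSI
import Pool.Agent.Helper26_QMA.TRG
import Pool.Agent.Helper14_QMA.TRF
import Pool.Agent.Helper80_QMA.MNK
import Pool.Agent.Helper3_QMA.KDT
import Pool.Agent.Helper98_QMA.NEX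
import Pool.Agent.Helper70_QMA.BIG
import Pool.Agent.Helper45_QMA.GEX
import Pool.Agent.Helper52_QMA.GEV
import Pool.Agent.Helper50_QMA.LXU
import Pool.Agent.Helper56_QMA.LXC
import Pool.Agent.Helper7_QMA.NUP
import Pool.Agent.Helper29_QMA.GDB
import Pool.Agent.Helper61_QMA.NUE
import Pool.Agent.Helper7_QMA.EXA
import Pool.Agent.Helper93_QMA.ABN
import Pool.Agent.Helper61_QMA.JKD
import Pool.Agent.Helper70_QMA.DSB
import Pool.Agent.Helper60_QMA.DEG
import Pool.Agent.Helper9_QMA.DEFB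
import Pool.Agent.Helper51_QMA.DED
import Pool.Agent.Helper27_QMA.NUF
import Pool.Agent.Helper77_QMA.DEP
import Pool.Agent.Helper4_QMA.MAX
import Pool.Agent.Helper8_QMA.TWD
import Pool.Agent.Helper23_QMA.NU0
import Pool.Agent.Helper95_QMA.INQ
import Pool.Agent.Helper81_QMA.MUQ
import Pool.Agent.Helper6_QMA.BAQ
import Pool.Agent.Helper86_QMA.NLQ
import Pool.Agent.Helper59_QMA.NUQ
import Pool.Agent.Helper92_QMA.CTC
import Pool.Agent.Helper1_QMA.GRQ
import Pool.Agent.Helper36_QMA.DXA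
import Pool.Agent.Helper47_QMA.DXB
import Pool.Agent.Helper11_QMA.DXC
import Pool.Agent.Helper72_QMA.GRE
import Pool.Agent.Helper35_QMA.JXA
import Pool.Agent.Helper24_QMA.JXB
import Pool.Agent.Helper2_QMA.LDQ
import Pool.Agent.Helper10_QMA.PIG
import Pool.Agent.Helper46_QMA.STQ
import Pool.Agent.Helper64_QMA.CTQ
import Pool.Agent.Helper75_QMA.FNQ

/-!
# QMA: composition of the parts B and C
-/

namespace Pool.Agent.QMA.CompBC

open Pool.Agent.QMA Pool.Agent.DFO

/-! ## Part B -/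

theorem spn : LCI.SpnStmt := LCI.H23.spn LCI.H34.unq
theorem exr : ExrStmt := H92.exr DFO.Comp.cmp
theorem dbn : DbnStmt := H88.dbn H62.cjg exr DFO.Comp.cmp LCI.H34.unq
theorem trg : TrgStmt := H26.trg H53.gr2 H58.im2 H89.tsi
theorem trf : TrfStmt := H14.trf H53.gr2 H89.tsi
theorem mnk : MnkStmt := H80.mnk H53.gr2 H58.im2
theorem kdt : KdtStmt := H3.kdt LCI.H34.unq
theorem nex : NexStmt := H98.nex H69.frn kdt
theorem big : BigStmt := H70.big exr kdt trg trf nex
theorem gex : GexStmt := Helper45.gex exr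
theorem lxu : LxuStmt := H50.lxu H52.gev
theorem lxc : LxcStmt := H56.lxc H62.cjg gex lxu
theorem nue : NueStmt := H61.nue H52.gev H29.gdb H7.nup
theorem abn : AbnStmt := H93.abn dbn DFO.H39.jac DFO.H94.rst
theorem jkd : JkdStmt := H61.jkd kdt DFO.H39.jac LCI.H34.unq
theorem dsb : DsbStmt := H70.dsb dbn abn jkd
theorem defb : DefbStmt :=
  H9.defb DFO.Comp.mon big lxc H7.nup H29.gdb dbn nue H7.exa mnk dsb H60.deg
theorem amn : AmnStmt := H30.amn abn
theorem defi : DefStmt := H30.defi defb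

/-! ## Part C -/

theorem nuf : NufStmt := H27.nuf H51.ded
theorem nu0 : Nu0Stmt := H23.nu0 H51.ded nuf H77.dep
theorem inq : InqStmt := H95.inq H51.ded nuf
theorem muq : MuqStmt := H81.muq DFO.H98.gra DFO.H82.img DFO.Comp.grw
theorem baq : BaqStmt := H6.baq DFO.H7.fdm DFO.Comp.lwm
theorem nlq : NlqStmt := H86.nlq H51.ded inq baq
theorem ctc : CtcStmt := H92.ctc H51.ded nuf inq muq baq H59.nuq
theorem dxa : DxaStmt := H36.dxa H51.ded
theorem dxb : DxbStmt := H47.dxb DFO.H82.img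
theorem dxc : DxcStmt := H11.dxc H51.ded nlq H1.grq dxa dxb
theorem gre : GreStmt := H72.gre DFO.H98.gra DFO.H82.img DFO.Comp.mon DFO.H7.fdm
theorem jxa : JxaStmt := H35.jxa amn DFO.H39.jac spn
theorem jxb : JxbStmt := H24.jxb DFO.H39.jac
theorem ldq : LdqStmt := H2.ldq defi H51.ded nuf H77.dep H8.twd nu0 jxa jxb
theorem stq : StqStmt := H46.stq defi H51.ded H77.dep nuf H4.max ctc dxc ldq
theorem ctq : CtqStmt := H64.ctq gre H10.pig stq

/-- The theorem from part A. -/
theorem finq (min : MinStmt) : FinqStmt := H75.fnq min ctq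

end Pool.Agent.QMA.CompBC
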